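import Pool.Agent.Helper52.ES.Spec

set_option autoImplicit false

/-! # Modules S4 and S6: discs on the arms of one row -/

namespace Pool.Agent.Helper16.ES

open Pool.Agent.Helper52.ES Pool.Agent.Helper52.Grid

namespace Arm

/-- Euclidean distance, lower bounds -/
theorem edist_fst (P Q : ℤ × ℤ) : |((P.1 - Q.1 : ℤ) : ℝ)| ≤ Pool.Agent.Helper52.ETSP.edist P Q := by
  unfold Pool.Agent.Helper52.ETSP.edist
  apply Real.le_sqrt_of_sq_le
  rw [sq_abs]
  nlinarith [sq_nonneg (((P.2 - Q.2 : ℤ) : ℝ))]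

theorem edist_snd (P Q : ℤ × ℤ) : |((P.2 - Q.2 : ℤ) : ℝ)| ≤ Pool.Agent.Helper52.ETSP.edist P Q := by
  unfold Pool.Agent.Helper52.ETSP.edist
  apply Real.le_sqrt_of_sq_le
  rw [sq_abs]
  nlinarith [sq_nonneg (((P.1 - Q.1 : ℤ) : ℝ))]

theorem edist_half (P Q : ℤ × ℤ) :
    (|((P.1 - Q.1 : ℤ) : ℝ)| + |((P.2 - Q.2 : ℤ) : ℝ)|) / 2 ≤
      Pool.Agent.Helper52.ETSP.edist P Q := by
  have h1 := edist_fst P Q
  have h2 := edist_snd P Q
  linarith

variable (p : Par)

/-- numerical consequences of the conditions -/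
structure Num (W i : ℕ) : Prop where
  CA : (p.C i : ℝ) ≤ p.A i
  CR : (p.C i : ℝ) ≤ p.R i
  H2 : 2 * (p.H i : ℝ) = p.R i + p.A i - p.C i
  big : 100 * ((W : ℝ) + 2) ≤ p.A i
  sml : 8 * (p.A i : ℝ) ≤ p.u
  RC : 41 / 100 * (p.A i : ℝ) - 2 ≤ p.R i - p.C i
  HA : (p.H i : ℝ) ≤ p.A i

theorem num {W i : ℕ} (h : p.Ok W) (hi : i < p.rows) : Num p W i := by
  have c1 : (p.C i : ℝ) ≤ p.A i := by exact_mod_cast h.CA i hi
  have c2 : (p.C i : ℝ) ≤ p.R i := by exact_mod_cast h.CR i hi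
  have c3 : 2 * (p.H i : ℝ) = p.R i + p.A i - p.C i := by
    have h1 := h.par i hi
    have h2 := h.CA i hi
    have h3 : 2 * p.H i + p.C i = p.R i + p.A i := by omega
    have h4 : 2 * (p.H i : ℝ) + p.C i = p.R i + p.A i := by exact_mod_cast h3
    linarith
  have c4 : 100 * ((W : ℝ) + 2) ≤ p.A i := by exact_mod_cast h.big i hi
  have c5 : 8 * (p.A i : ℝ) ≤ p.u := by exact_mod_cast h.sml i hi
  have c0 : (0 : ℝ) ≤ p.C i := Nat.cast_nonneg _
  have cA : (0 : ℝ) ≤ p.A i := Nat.cast_nonneg _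
  have cR : (0 : ℝ) ≤ p.R i := Nat.cast_nonneg _
  have c6 : 41 / 100 * (p.A i : ℝ) - 2 ≤ p.R i - p.C i := by
    have h1 : (p.A i : ℝ) ^ 2 + (p.C i : ℝ) ^ 2 ≤ (p.R i + 2) ^ 2 := by
      exact_mod_cast h.high i hi
    have h2 : ((p.C i : ℝ) + 41 / 100 * p.A i) ^ 2 ≤ (p.R i + 2) ^ 2 := by
      refine le_trans ?_ h1
      nlinarith [mul_le_mul_of_nonneg_left c1 cA]
    have h3 := abs_le_of_sq_le_sq' h2 (by positivity)
    linarith [h3.2]
  have c7 : (p.H i : ℝ) ≤ p.A i := by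
    have h1 : (p.R i : ℝ) ^ 2 ≤ (p.A i : ℝ) ^ 2 + (p.C i : ℝ) ^ 2 := by
      exact_mod_cast h.low i hi
    have h2 : (p.R i : ℝ) ^ 2 ≤ (p.A i + p.C i) ^ 2 := by
      refine h1.trans ?_
      nlinarith [mul_nonneg cA c0]
    have h3 := abs_le_of_sq_le_sq' h2 (by positivity)
    linarith [h3.2]
  exact ⟨c1, c2, c3, c4, c5, c6, c7⟩

theorem r2_cast {i c : ℕ} (W : ℕ) (h : p.Ok W) (hi : i < p.rows) :
    41 * (W : ℝ) + 80 ≤ (p.r2 i c : ℝ) := by
  have n := num p h hi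
  have c0 : (0 : ℝ) ≤ p.C i := Nat.cast_nonneg _
  unfold Par.r2
  split_ifs
  · rw [Nat.cast_sub (h.CR i hi)]
    have := n.RC; have := n.big; linarith
  · push_cast
    have := n.RC; have := n.big; linarith
  · have := n.big
    have h0 : (0 : ℝ) ≤ W := Nat.cast_nonneg _
    linarith

/-- `2 ^ fk` and `r2` -/
theorem fk_spec {i c : ℕ} (hF : p.FK) (hi : i < p.rows) (hc : c < 4) :
    6 * (2 : ℝ) ^ p.fk i c ≤ 5 * (p.r2 i c : ℝ) ∧
      5 * (p.r2 i c : ℝ) < 12 * (2 : ℝ) ^ p.fk i c := by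
  have h1 : p.fst' i c (p.fk i c) = true := (hF.fst i hi c hc _).2 le_rfl
  have h2 : ¬ p.fst' i c (p.fk i c + 1) = true := by
    rw [hF.fst i hi c hc]; omega
  unfold Par.fst' at h1 h2
  rw [decide_eq_true_eq] at h1 h2
  rw [not_le, pow_succ] at h2
  constructor
  · exact_mod_cast h1
  · have : 5 * p.r2 i c < 12 * 2 ^ p.fk i c := by omega
    exact_mod_cast this

theorem rad_ring (i c : ℕ) : p.rad (ring i c) = (p.r2 i c : ℝ) / 2 := by
  unfold Par.rad
  simp

theorem rad_coin_le (i c k : ℕ) : p.rad (coin i c k) ≤ 2 / 5 * (2 : ℝ) ^ k := by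
  have h0 : (0 : ℝ) < 2 ^ k := by positivity
  unfold Par.rad
  rw [if_neg (by simp), if_neg (by simp), if_neg (by simp)]
  split_ifs <;> linarith

theorem rad_coin_gt {i c k : ℕ} (hF : p.FK) (hi : i < p.rows) (hc : c < 4)
    (hk : p.fk i c < k) : p.rad (coin i c k) = 7 / 20 * (2 : ℝ) ^ k := by
  have h1 : ¬ p.fst' i c k = true := by rw [hF.fst i hi c hc]; omega
  unfold Par.rad
  simp [h1]

/-- coordinates -/
theorem two_pow_le {k : ℕ} (hk : k < p.e + 3) : 2 ^ k ≤ 4 * p.u := by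
  unfold Par.u
  calc 2 ^ k ≤ 2 ^ (p.e + 2) := Nat.pow_le_pow_right (by norm_num) (by omega)
    _ = 4 * 2 ^ p.e := by rw [pow_add]; ring

theorem Y_big (i : ℕ) : 98 * p.u ≤ p.Y (7 + 6 * i) := by
  unfold Par.Y
  rw [if_neg (by omega), Nat.sub_zero]
  have : 14 * p.u * (7 + 6 * i) = 98 * p.u + 84 * (p.u * i) := by ring
  rw [this]
  exact Nat.le_add_right _ _

theorem X_big : 80 * p.u ≤ p.X p.K0 := by
  have h : 5 ≤ p.K0 := by unfold Par.K0; omega
  unfold Par.X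
  have h2 : 16 * p.u * 5 ≤ 16 * p.u * p.K0 := Nat.mul_le_mul_left _ h
  omega

theorem H_le {W i : ℕ} (h : p.Ok W) (hi : i < p.rows) : p.H i ≤ p.u := by
  have n := num p h hi
  have h1 : (p.H i : ℝ) ≤ p.u := by
    have := n.HA; have := n.sml
    have : (0 : ℝ) ≤ p.A i := Nat.cast_nonneg _
    linarith
  exact_mod_cast h1

/-- signed direction and base point of an arm, relative to `(X K0, Y (7 + 6 i))` -/
theorem pos_ring {W i c : ℕ} (h : p.Ok W) (hi : i < p.rows) (hc : c < 4) :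
    p.pos (ring i c) = ((p.X p.K0 : ℤ) + (if 2 ≤ c then (p.A i : ℤ) else 0),
      (p.Y (7 + 6 * i) : ℤ) + (if c = 1 then 0 else if c = 2 then (p.C i : ℤ) else -(p.H i : ℤ)))
      := by
  have h1 := H_le p h hi
  have h2 := Y_big p i
  have h3 : p.H i ≤ p.Y (7 + 6 * i) := by omega
  unfold Par.pos Par.px Par.py
  interval_cases c <;> simp [Nat.cast_sub h3] <;> ring

theorem pos_coin {W i c k : ℕ} (h : p.Ok W) (hi : i < p.rows) (hc : c < 4) (hk : k < p.e + 3) :
    p.pos (coin i c k) = ((p.pos (ring i c)).1 +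
      (if c = 1 then -(2 : ℤ) ^ k else if c = 3 then (2 : ℤ) ^ k else 0),
      (p.pos (ring i c)).2 +
      (if c = 0 then -(2 : ℤ) ^ k else if c = 2 then (2 : ℤ) ^ k else 0)) := by
  have h1 := H_le p h hi
  have h2 := Y_big p i
  have h4 := X_big p
  have h5 := two_pow_le p hk
  have h3 : p.H i ≤ p.Y (7 + 6 * i) := by omega
  have h6 : 2 ^ k ≤ p.Y (7 + 6 * i) - p.H i := by omega
  have h7 : 2 ^ k ≤ p.X p.K0 := by omega
  rw [pos_ring p h hi hc]
  unfold Par.pos Par.px Par.py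
  interval_cases c <;> simp [Nat.cast_sub h3, Nat.cast_sub h6, Nat.cast_sub h7] <;> ring

end Arm

/-- (S4) one arm -/
theorem S4 : specS4 := by
  intro p W hok hF i hi c hc k hk1 hk2
  have hr := Arm.r2_cast p (c := c) W hok hi
  obtain ⟨f1, f2⟩ := Arm.fk_spec p hF hi hc
  have hW : (0 : ℝ) ≤ W := Nat.cast_nonneg _
  constructor
  · intro hlt
    have e1 : (2 : ℝ) * 2 ^ p.fk i c ≤ 2 ^ k := by
      rw [← pow_succ']
      exact pow_le_pow_right₀ (by norm_num) (by omega)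
    unfold Par.Far
    rw [Arm.rad_ring, Arm.rad_coin_gt p hF hi hc hlt]
    have hd : (2 : ℝ) ^ k ≤ p.dst (ring i c) (coin i c k) := by
      unfold Par.dst
      rw [Arm.pos_coin p hok hi hc hk2]
      rcases (by omega : c = 0 ∨ c = 1 ∨ c = 2 ∨ c = 3) with rfl | rfl | rfl | rfl
      · refine le_trans (le_of_eq ?_) (Arm.edist_snd _ _)
        simp
      · refine le_trans (le_of_eq ?_) (Arm.edist_fst _ _)
        simp
      · refine le_trans (le_of_eq ?_) (Arm.edist_snd _ _)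
        simp
      · refine le_trans (le_of_eq ?_) (Arm.edist_fst _ _)
        simp
    linarith
  · intro k' hk' hk''
    have e1 : (4 : ℝ) * 2 ^ k ≤ 2 ^ k' := by
      have : (4 : ℝ) * 2 ^ k = 2 ^ (k + 2) := by rw [pow_add]; norm_num; ring
      rw [this]
      exact pow_le_pow_right₀ (by norm_num) (by omega)
    have e2 : (2 : ℝ) ^ p.fk i c ≤ 2 ^ k := pow_le_pow_right₀ (by norm_num) hk1
    unfold Par.Far
    rw [Arm.rad_coin_gt p hF hi hc (by omega : p.fk i c < k')]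
    have e3 := Arm.rad_coin_le p i c k
    have hd : (2 : ℝ) ^ k' - 2 ^ k ≤ p.dst (coin i c k) (coin i c k') := by
      unfold Par.dst
      rw [Arm.pos_coin p hok hi hc hk2, Arm.pos_coin p hok hi hc hk'']
      rcases (by omega : c = 0 ∨ c = 1 ∨ c = 2 ∨ c = 3) with rfl | rfl | rfl | rfl
      · refine le_trans ?_ (Arm.edist_snd _ _)
        refine le_trans (le_of_eq ?_) (le_abs_self _)
        push_cast; simp; ring
      · refine le_trans ?_ (Arm.edist_fst _ _)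
        refine le_trans (le_of_eq ?_) (le_abs_self _)
        push_cast; simp; ring
      · refine le_trans ?_ (Arm.edist_snd _ _)
        refine le_trans (le_of_eq ?_) (neg_le_abs _)
        push_cast; simp
      · refine le_trans ?_ (Arm.edist_fst _ _)
        refine le_trans (le_of_eq ?_) (neg_le_abs _)
        push_cast; simp
    linarith

/-- (S6) discs on different arms -/
theorem S6 : specS6 := by
  intro p W hok hF i hi c hc c' hc' hne k k' hk1 hk2 hk3 hk4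
  have hr := Arm.r2_cast p (c := c) W hok hi
  have hr' := Arm.r2_cast p (c := c') W hok hi
  obtain ⟨f1, f2⟩ := Arm.fk_spec p hF hi hc
  obtain ⟨f3, f4⟩ := Arm.fk_spec p hF hi hc'
  have hW : (0 : ℝ) ≤ W := Nat.cast_nonneg _
  have e2 : (2 : ℝ) ^ p.fk i c ≤ 2 ^ k := pow_le_pow_right₀ (by norm_num) hk1
  have e3 : (2 : ℝ) ^ p.fk i c' ≤ 2 ^ k' := pow_le_pow_right₀ (by norm_num) hk3
  have e4 := Arm.rad_coin_le p i c k
  have e5 := Arm.rad_coin_le p i c' k'
  have n := Arm.num p hok hi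
  have cC : (0 : ℝ) ≤ p.C i := Nat.cast_nonneg _
  have cA : (0 : ℝ) ≤ p.A i := Nat.cast_nonneg _
  have cH : (0 : ℝ) ≤ p.H i := Nat.cast_nonneg _
  have s0 : (0 : ℝ) < 2 ^ k := by positivity
  have t0 : (0 : ℝ) < 2 ^ k' := by positivity
  unfold Par.Far
  have hd : ((2 : ℝ) ^ k + 2 ^ k') / 2 ≤ p.dst (coin i c k) (coin i c' k') := by
    unfold Par.dst
    refine le_trans ?_ (Arm.edist_half _ _)
    rw [Arm.pos_coin p hok hi hc hk2, Arm.pos_coin p hok hi hc' hk4, Arm.pos_ring p hok hi hc,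
      Arm.pos_ring p hok hi hc']
    have key : ∀ x y : ℝ, (2 : ℝ) ^ k + 2 ^ k' ≤ |x| + |y| →
        ((2 : ℝ) ^ k + 2 ^ k') / 2 ≤ (|x| + |y|) / 2 := by
      intro x y h; linarith
    apply key
    have b1 : ∀ x y : ℝ, x + y ≤ |x| + |y| := fun x y => add_le_add (le_abs_self x) (le_abs_self y)
    have b2 : ∀ x y : ℝ, -x + y ≤ |x| + |y| := fun x y => add_le_add (neg_le_abs x) (le_abs_self y)
    have b3 : ∀ x y : ℝ, x - y ≤ |x| + |y| := fun x y => by
      rw [sub_eq_add_neg]; exact add_le_add (le_abs_self x) (neg_le_abs y)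
    have b4 : ∀ x y : ℝ, -x - y ≤ |x| + |y| := fun x y => by
      rw [sub_eq_add_neg]; exact add_le_add (neg_le_abs x) (neg_le_abs y)
    rcases (by omega : c = 0 ∨ c = 1 ∨ c = 2 ∨ c = 3) with rfl | rfl | rfl | rfl <;>
    rcases (by omega : c' = 0 ∨ c' = 1 ∨ c' = 2 ∨ c' = 3) with rfl | rfl | rfl | rfl <;>
    first
    | exact absurd rfl hne
    | (refine le_trans ?_ (b1 _ _)
       push_cast; simp
       linarith)
    | (refine le_trans ?_ (b2 _ _)
       push_cast; simp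
       linarith)
    | (refine le_trans ?_ (b3 _ _)
       push_cast; simp
       linarith)
    | (refine le_trans ?_ (b4 _ _)
       push_cast; simp
       linarith)
  linarith

end Pool.Agent.Helper16.ES
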