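import Pool.Agent.Helper52.ES.Gen

set_option autoImplicit false

/-! # Double counting: modules DL1 and DL2 -/

namespace Pool.Agent.Helper16.ES

open Pool.Agent.Helper52.ES Finset Function

open scoped Classical

namespace DL

variable {α : Type} (N : Net α) {n : ℕ} (f : Fin n → α)

/-- excess -/
noncomputable def xi (a b : α) : ℝ := N.len a b - N.rad a - N.rad b

theorem xi_symm (hM : N.GoodM) (a b : α) : xi N a b = xi N b a := by
  unfold xi
  rw [hM.symL a b]; ring

theorem rot_ne (hn : 3 ≤ n) (i : Fin n) : finRotate n i ≠ i := by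
  obtain ⟨m, rfl⟩ : ∃ m, n = m + 3 := ⟨n - 3, by omega⟩
  intro h
  rw [finRotate_apply] at h
  have := congrArg Fin.val h
  rw [Fin.val_add] at this
  have hi := i.2
  rcases Nat.lt_or_ge (i.val + 1) (m + 3) with h1 | h1
  · rw [show ((1 : Fin (m + 3)) : ℕ) = 1 from rfl, Nat.mod_eq_of_lt h1] at this
    omega
  · have h2 : i.val + 1 = m + 3 := by omega
    rw [show ((1 : Fin (m + 3)) : ℕ) = 1 from rfl, h2, Nat.mod_self] at this
    omega

theorem rot2_ne (hn : 3 ≤ n) (i : Fin n) : finRotate n (finRotate n i) ≠ i := by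
  obtain ⟨m, rfl⟩ : ∃ m, n = m + 3 := ⟨n - 3, by omega⟩
  intro h
  rw [finRotate_apply, finRotate_apply, add_assoc] at h
  have h0 : (1 + 1 : Fin (m + 3)) = 0 := by
    have : i + (1 + 1) = i + 0 := by rw [h, add_zero]
    exact add_left_cancel this
  have := congrArg Fin.val h0
  rw [Fin.val_add, show ((1 : Fin (m + 3)) : ℕ) = 1 from rfl, Nat.mod_eq_of_lt (by omega)] at this
  simp at this

theorem cyc_iff (hf : Injective f) (i j : Fin n) :
    Cyc f (f i) (f j) ↔ finRotate n i = j ∨ finRotate n j = i := by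
  constructor
  · rintro ⟨k, ⟨h1, h2⟩ | ⟨h1, h2⟩⟩
    · left; rw [← hf h1]; exact hf h2
    · right; rw [← hf h1]; exact hf h2
  · rintro (h | h)
    · exact ⟨i, Or.inl ⟨rfl, by rw [h]⟩⟩
    · exact ⟨j, Or.inr ⟨rfl, by rw [h]⟩⟩

theorem sum_V (hV : N.V.Nodup) (hf : Injective f) (hr : ∀ a, a ∈ N.V ↔ ∃ i, f i = a)
    (g : α → ℝ) : (N.V.map g).sum = ∑ i, g (f i) := by
  rw [← List.sum_toFinset g hV]
  have : N.V.toFinset = univ.image f := by
    ext a
    rw [List.mem_toFinset, hr, Finset.mem_image]
    simp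
  rw [this, Finset.sum_image fun i _ j _ h => hf h]

theorem sum_FL (hC : N.GoodC) (hf : Injective f) (hr : ∀ a, a ∈ N.V ↔ ∃ i, f i = a)
    (g : α × α → ℝ) :
    (N.FL.map g).sum = ∑ i, ∑ j, if (f i, f j) ∈ N.FL then g (f i, f j) else 0 := by
  rw [← List.sum_toFinset g hC.nodupF]
  have : N.FL.toFinset = (univ.filter fun p : Fin n × Fin n => (f p.1, f p.2) ∈ N.FL).image
      fun p => (f p.1, f p.2) := by
    ext ⟨a, b⟩
    rw [List.mem_toFinset, Finset.mem_image]
    constructor
    · intro h
      obtain ⟨h1, h2, _⟩ := hC.memF a b h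
      obtain ⟨i, rfl⟩ := (hr a).1 h1
      obtain ⟨j, rfl⟩ := (hr b).1 h2
      exact ⟨(i, j), Finset.mem_filter.2 ⟨Finset.mem_univ _, h⟩, rfl⟩
    · rintro ⟨p, hp, h⟩
      rw [← h]
      exact (Finset.mem_filter.1 hp).2
  rw [this, Finset.sum_image, Finset.sum_filter, Fintype.sum_prod_type]
  rintro ⟨i, j⟩ _ ⟨i', j'⟩ _ h
  simp only [Prod.mk.injEq] at h
  rw [hf h.1, hf h.2]

/-- number of forced neighbours -/
theorem deg (hC : N.GoodC) (hf : Injective f) (hr : ∀ a, a ∈ N.V ↔ ∃ i, f i = a) (i : Fin n) :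
    (∑ j, (if (f i, f j) ∈ N.FL then (1 : ℝ) else 0)) +
      ∑ j, (if (f j, f i) ∈ N.FL then (1 : ℝ) else 0) = if N.Two (f i) then 2 else 1 := by
  have h1 : (∑ j, (if (f i, f j) ∈ N.FL then (1 : ℝ) else 0)) +
      ∑ j, (if (f j, f i) ∈ N.FL then (1 : ℝ) else 0) =
      ((univ.filter fun j => N.F (f i) (f j)).card : ℝ) := by
    rw [← Finset.sum_add_distrib, Finset.card_filter]
    push_cast
    apply Finset.sum_congr rfl
    intro j _
    unfold Net.F
    by_cases h2 : (f i, f j) ∈ N.FL
    · have h3 := hC.anti _ _ h2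
      simp [h2, h3]
    · simp [h2]
  have hFi : ∀ b, N.F (f i) b → ∃ j, f j = b := by
    rintro b (h | h)
    · exact (hr b).1 (hC.memF _ _ h).2.1
    · exact (hr b).1 (hC.memF _ _ h).1
  rw [h1]
  by_cases hT : N.Two (f i)
  · rw [if_pos hT]
    obtain ⟨b, c, hbc, hb, hc⟩ := hT
    obtain ⟨j, rfl⟩ := hFi b hb
    obtain ⟨k, rfl⟩ := hFi c hc
    have hjk : j ≠ k := fun h => hbc (by rw [h])
    have : (univ.filter fun j => N.F (f i) (f j)) = {j, k} := by
      ext l
      simp only [Finset.mem_filter, Finset.mem_univ, true_and, Finset.mem_insert,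
        Finset.mem_singleton]
      constructor
      · intro hl
        rcases hC.most _ _ _ _ hb hc hl with h | h | h
        · exact absurd h hbc
        · exact Or.inl (hf h).symm
        · exact Or.inr (hf h).symm
      · rintro (rfl | rfl)
        · exact hb
        · exact hc
    rw [this, Finset.card_pair hjk]
    norm_num
  · rw [if_neg hT]
    obtain ⟨b, hb⟩ := hC.some (f i) ((hr _).2 ⟨i, rfl⟩)
    obtain ⟨j, rfl⟩ := hFi b hb
    have : (univ.filter fun j => N.F (f i) (f j)) = {j} := by
      ext l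
      simp only [Finset.mem_filter, Finset.mem_univ, true_and, Finset.mem_singleton]
      constructor
      · intro hl
        by_contra hne
        exact hT ⟨f l, f j, fun h => hne (hf h), hl, hb⟩
      · rintro rfl
        exact hb
    rw [this, Finset.card_singleton]
    norm_num

/-- the basic identity -/
theorem master (hC : N.GoodC) (hM : N.GoodM) (hn : 3 ≤ n) (hf : Injective f)
    (hr : ∀ a, a ∈ N.V ↔ ∃ i, f i = a) :
    ∑ i, N.len (f i) (f (finRotate n i)) = N.Lam +
      (∑ i, if N.F (f i) (f (finRotate n i)) then 0 else xi N (f i) (f (finRotate n i))) +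
      ∑ i, ∑ j, (if (f i, f j) ∈ N.FL ∧ ¬ Cyc f (f i) (f j) then -xi N (f i) (f j) else 0) := by
  -- the tour
  have h1 : ∑ i, N.len (f i) (f (finRotate n i)) = 2 * ∑ i, N.rad (f i) +
      ∑ i, xi N (f i) (f (finRotate n i)) := by
    have e1 : ∑ i, N.rad (f (finRotate n i)) = ∑ i, N.rad (f i) :=
      Equiv.sum_comp (finRotate n) fun i => N.rad (f i)
    have e2 : ∑ i, N.len (f i) (f (finRotate n i)) = ∑ i, N.rad (f i) +
        ∑ i, N.rad (f (finRotate n i)) + ∑ i, xi N (f i) (f (finRotate n i)) := by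
      rw [← Finset.sum_add_distrib, ← Finset.sum_add_distrib]
      apply Finset.sum_congr rfl
      intro i _
      unfold xi; ring
    rw [e2, e1]; ring
  -- the length of the forced pairs
  have h2 : N.Lam = 2 * ∑ i, N.rad (f i) +
      ∑ i, ∑ j, (if (f i, f j) ∈ N.FL then xi N (f i) (f j) else 0) := by
    have e0 : N.Lam = (N.FL.map fun q => N.len q.1 q.2).sum +
        (N.V.map fun a => if N.Two a then 0 else N.rad a).sum := by
      unfold Net.Lam
      rfl
    rw [e0, sum_FL N f hC hf hr, sum_V N f hC.nodupV hf hr]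
    have e1 : ∀ i j, (if (f i, f j) ∈ N.FL then N.len (f i) (f j) else 0) =
        (if (f i, f j) ∈ N.FL then xi N (f i) (f j) else 0) +
        (N.rad (f i) * (if (f i, f j) ∈ N.FL then (1 : ℝ) else 0) +
        N.rad (f j) * (if (f i, f j) ∈ N.FL then (1 : ℝ) else 0)) := by
      intro i j
      split_ifs
      · unfold xi; ring
      · ring
    simp only [e1, Finset.sum_add_distrib]
    have e2 : ∑ i, ∑ j, N.rad (f j) * (if (f i, f j) ∈ N.FL then (1 : ℝ) else 0) =
        ∑ i, N.rad (f i) * ∑ j, (if (f j, f i) ∈ N.FL then (1 : ℝ) else 0) := by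
      rw [Finset.sum_comm]
      simp only [Finset.mul_sum]
    have e3 : ∑ i, ∑ j, N.rad (f i) * (if (f i, f j) ∈ N.FL then (1 : ℝ) else 0) =
        ∑ i, N.rad (f i) * ∑ j, (if (f i, f j) ∈ N.FL then (1 : ℝ) else 0) := by
      simp only [Finset.mul_sum]
    rw [e2, e3, ← Finset.sum_add_distrib]
    have e4 : ∑ i, (N.rad (f i) * ∑ j, (if (f i, f j) ∈ N.FL then (1 : ℝ) else 0) +
        N.rad (f i) * ∑ j, (if (f j, f i) ∈ N.FL then (1 : ℝ) else 0)) +
        ∑ i, (if N.Two (f i) then 0 else N.rad (f i)) = 2 * ∑ i, N.rad (f i) := by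
      rw [← Finset.sum_add_distrib, Finset.mul_sum]
      apply Finset.sum_congr rfl
      intro i _
      rw [← mul_add, deg N f hC hf hr i]
      split_ifs <;> ring
    linarith
  -- the forced edges of the tour
  have h3 : ∑ i, (if N.F (f i) (f (finRotate n i)) then xi N (f i) (f (finRotate n i)) else 0) =
      ∑ i, ∑ j, (if (f i, f j) ∈ N.FL ∧ Cyc f (f i) (f j) then xi N (f i) (f j) else 0) := by
    have e1 : ∀ i j, (if (f i, f j) ∈ N.FL ∧ Cyc f (f i) (f j) then xi N (f i) (f j) else 0) =
        (if finRotate n i = j then (if (f i, f j) ∈ N.FL then xi N (f i) (f j) else 0) else 0) +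
        (if finRotate n j = i then (if (f i, f j) ∈ N.FL then xi N (f i) (f j) else 0) else 0) := by
      intro i j
      rw [cyc_iff f hf]
      by_cases a1 : finRotate n i = j
      · have a2 : finRotate n j ≠ i := by
          rw [← a1]; exact rot2_ne hn i
        simp [a1, a2, -finRotate_apply]
      · by_cases a2 : finRotate n j = i
        · simp [a1, a2, -finRotate_apply]
        · simp [a1, a2, -finRotate_apply]
    simp only [e1, Finset.sum_add_distrib]
    rw [Finset.sum_comm (f := fun i j => (if finRotate n j = i then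
      (if (f i, f j) ∈ N.FL then xi N (f i) (f j) else 0) else 0))]
    simp only [Finset.sum_ite_eq, Finset.mem_univ, if_true]
    rw [← Finset.sum_add_distrib]
    apply Finset.sum_congr rfl
    intro i _
    unfold Net.F
    by_cases a1 : (f i, f (finRotate n i)) ∈ N.FL
    · have a2 := hC.anti _ _ a1
      simp [a1, a2, -finRotate_apply]
    · by_cases a2 : (f (finRotate n i), f i) ∈ N.FL
      · simp [a1, a2, xi_symm N hM (f i), -finRotate_apply]
      · simp [a1, a2, -finRotate_apply]
  have h4 : ∑ i, xi N (f i) (f (finRotate n i)) =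
      (∑ i, if N.F (f i) (f (finRotate n i)) then 0 else xi N (f i) (f (finRotate n i))) +
      ∑ i, (if N.F (f i) (f (finRotate n i)) then xi N (f i) (f (finRotate n i)) else 0) := by
    rw [← Finset.sum_add_distrib]
    apply Finset.sum_congr rfl
    intro i _
    split_ifs <;> ring
  have h5 : ∑ i, ∑ j, (if (f i, f j) ∈ N.FL then xi N (f i) (f j) else 0) =
      ∑ i, ∑ j, (if (f i, f j) ∈ N.FL ∧ Cyc f (f i) (f j) then xi N (f i) (f j) else 0) -
      ∑ i, ∑ j, (if (f i, f j) ∈ N.FL ∧ ¬ Cyc f (f i) (f j) then -xi N (f i) (f j) else 0) := by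
    rw [← Finset.sum_sub_distrib]
    apply Finset.sum_congr rfl
    intro i _
    rw [← Finset.sum_sub_distrib]
    apply Finset.sum_congr rfl
    intro j _
    by_cases a1 : (f i, f j) ∈ N.FL <;> by_cases a2 : Cyc f (f i) (f j) <;> simp [a1, a2, -finRotate_apply]
  rw [h1, h2, h4, h3, h5]
  ring

theorem F_symm {a b : α} (h : N.F a b) : N.F b a := h.symm

/-- forced pairs are not optional -/
theorem not_O (hC : N.GoodC) {a b : α} (h : N.F a b) : ¬ N.O a b := by
  intro ho
  rcases hC.rigid a b h with h1 | h1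
  · exact hC.twoO a b h1 ho
  · exact hC.twoO b a h1 (hC.symO _ _ ho)

end DL

/-- (DL1) -/
theorem DL1 : specDL1 := by
  intro α N n f W hC hM hn hf hr hlen hW
  have hm := DL.master N f hC hM hn hf hr
  have hg := hM.gap0
  have hV : ∀ i, f i ∈ N.V := fun i => (hr _).2 ⟨i, rfl⟩
  -- all terms are nonnegative
  have t1 : ∀ i, 0 ≤ (if N.F (f i) (f (finRotate n i)) then 0 else
      DL.xi N (f i) (f (finRotate n i))) := by
    intro i
    split_ifs with h1
    · exact le_rfl
    · by_cases h2 : N.O (f i) (f (finRotate n i))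
      · have := hM.lenO _ _ h2
        unfold DL.xi; linarith
      · have := hM.lenN _ (hV i) _ (hV _) (fun h => DL.rot_ne hn i (hf h).symm) h1 h2
        unfold DL.xi; linarith
  have t2 : 0 ≤ ∑ i, ∑ j, (if (f i, f j) ∈ N.FL ∧ ¬ Cyc f (f i) (f j) then
      -DL.xi N (f i) (f j) else 0) := by
    apply Finset.sum_nonneg
    intro i _
    apply Finset.sum_nonneg
    intro j _
    split_ifs with h1
    · have := hM.lenF _ _ (Or.inl h1.1)
      unfold DL.xi; linarith
    · exact le_rfl
  have key : ∀ i, N.F (f i) (f (finRotate n i)) ∨ N.O (f i) (f (finRotate n i)) := by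
    intro i
    by_contra hcon
    push Not at hcon
    have h1 := hM.lenN _ (hV i) _ (hV _) (fun h => DL.rot_ne hn i (hf h).symm) hcon.1 hcon.2
    have h2 := Finset.single_le_sum (f := fun i => (if N.F (f i) (f (finRotate n i)) then 0 else
      DL.xi N (f i) (f (finRotate n i)))) (fun i _ => t1 i) (Finset.mem_univ i)
    simp only [if_neg hcon.1] at h2
    unfold DL.xi at h2 hm
    unfold DL.xi at t2
    linarith
  have first : ∀ a b, Cyc f a b → N.F a b ∨ N.O a b := by
    rintro a b ⟨i, ⟨rfl, rfl⟩ | ⟨rfl, rfl⟩⟩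
    · exact key i
    · rcases key i with h | h
      · exact Or.inl h.symm
      · exact Or.inr (hC.symO _ _ h)
  have half : ∀ a b, N.F a b → N.Two a → Cyc f a b := by
    intro a b hab hT
    have ha : a ∈ N.V := by
      rcases hab with h | h
      · exact (hC.memF _ _ h).1
      · exact (hC.memF _ _ h).2.1
    obtain ⟨i, rfl⟩ := (hr a).1 ha
    have c1 : Cyc f (f i) (f (finRotate n i)) := ⟨i, Or.inl ⟨rfl, rfl⟩⟩
    have c2 : Cyc f (f i) (f ((finRotate n).symm i)) :=
      ⟨(finRotate n).symm i, Or.inr ⟨rfl, by rw [Equiv.apply_symm_apply]⟩⟩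
    have d1 : N.F (f i) (f (finRotate n i)) :=
      (first _ _ c1).resolve_right (hC.twoO _ _ hT)
    have d2 : N.F (f i) (f ((finRotate n).symm i)) :=
      (first _ _ c2).resolve_right (hC.twoO _ _ hT)
    have hne : f (finRotate n i) ≠ f ((finRotate n).symm i) := by
      intro h
      have h2 := hf h
      apply DL.rot2_ne hn i
      rw [h2, Equiv.apply_symm_apply]
    rcases hC.most _ _ _ _ d1 d2 hab with h | h | h
    · exact absurd h hne
    · rw [← h]; exact c1
    · rw [← h]; exact c2
  refine ⟨first, fun a b hab => ?_⟩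
  rcases hC.rigid a b hab with h | h
  · exact half a b hab h
  · obtain ⟨i, hi⟩ := half b a hab.symm h
    exact ⟨i, hi.symm⟩

/-- (DL2) -/
theorem DL2 : specDL2 := by
  intro α N n f hC hM hn hf hr hFO hF R x y w hx hy hxy hO hlen hzero
  have hm := DL.master N f hC hM hn hf hr
  have e1 : ∑ i, ∑ j, (if (f i, f j) ∈ N.FL ∧ ¬ Cyc f (f i) (f j) then
      -DL.xi N (f i) (f j) else 0) = 0 := by
    apply Finset.sum_eq_zero
    intro i _
    apply Finset.sum_eq_zero
    intro j _
    rw [if_neg]
    rintro ⟨h1, h2⟩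
    exact h2 (hF _ _ (Or.inl h1))
  -- each tour edge
  have e2 : ∀ i, (if N.F (f i) (f (finRotate n i)) then 0 else
      DL.xi N (f i) (f (finRotate n i))) = ∑ r ∈ range R,
      (if (f i = x r ∧ f (finRotate n i) = y r) ∨ (f i = y r ∧ f (finRotate n i) = x r)
        then w r else 0) := by
    intro i
    by_cases hex : ∃ r < R, (f i = x r ∧ f (finRotate n i) = y r) ∨
        (f i = y r ∧ f (finRotate n i) = x r)
    · obtain ⟨r, hr1, hr2⟩ := hex
      have hOi : N.O (f i) (f (finRotate n i)) := by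
        rcases hr2 with ⟨a1, a2⟩ | ⟨a1, a2⟩
        · rw [a1, a2]; exact hO r hr1
        · rw [a1, a2]; exact hC.symO _ _ (hO r hr1)
      have hnF : ¬ N.F (f i) (f (finRotate n i)) := fun h => DL.not_O N hC h hOi
      rw [if_neg hnF]
      have hval : DL.xi N (f i) (f (finRotate n i)) = w r := by
        have hl := hlen r hr1
        rcases hr2 with ⟨a1, a2⟩ | ⟨a1, a2⟩
        · rw [a1, a2]; unfold DL.xi; linarith
        · rw [a1, a2, DL.xi_symm N hM]; unfold DL.xi; linarith
      rw [hval, Finset.sum_eq_single r]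
      · rw [if_pos hr2]
      · intro r' hr' hne
        rw [if_neg]
        intro h
        have hr'' := Finset.mem_range.1 hr'
        rcases hr2 with ⟨a1, a2⟩ | ⟨a1, a2⟩ <;> rcases h with ⟨b1, b2⟩ | ⟨b1, b2⟩
        · exact hne (hx r' hr'' r hr1 (b1.symm.trans a1))
        · exact hxy r hr1 r' hr'' (a1.symm.trans b1)
        · exact hxy r' hr'' r hr1 (b1.symm.trans a1)
        · exact hne (hy r' hr'' r hr1 (b1.symm.trans a1))
      · intro h
        exact absurd (Finset.mem_range.2 hr1) h
    · have hnone : ∀ r < R, ¬ ((f i = x r ∧ f (finRotate n i) = y r) ∨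
          (f i = y r ∧ f (finRotate n i) = x r)) := by
        intro r hr1 h
        exact hex ⟨r, hr1, h⟩
      rw [Finset.sum_eq_zero]
      swap
      · intro r hr'
        rw [if_neg (hnone r (Finset.mem_range.1 hr'))]
      by_cases h1 : N.F (f i) (f (finRotate n i))
      · rw [if_pos h1]
      · rw [if_neg h1]
        have h2 : N.O (f i) (f (finRotate n i)) :=
          (hFO _ _ ⟨i, Or.inl ⟨rfl, rfl⟩⟩).resolve_left h1
        have h3 := hzero _ _ h2 (by
          intro r hr1
          have := hnone r hr1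
          tauto)
        unfold DL.xi
        linarith
  have e3 : ∀ r ∈ range R, ∑ i, (if (f i = x r ∧ f (finRotate n i) = y r) ∨
      (f i = y r ∧ f (finRotate n i) = x r) then w r else 0) =
      if Cyc f (x r) (y r) then w r else 0 := by
    intro r hr'
    have hr1 := Finset.mem_range.1 hr'
    by_cases hc : Cyc f (x r) (y r)
    · rw [if_pos hc]
      obtain ⟨i, hi⟩ := hc
      rw [Finset.sum_eq_single i]
      · rw [if_pos]
        rcases hi with ⟨a1, a2⟩ | ⟨a1, a2⟩
        · exact Or.inl ⟨a1, a2⟩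
        · exact Or.inr ⟨a1, a2⟩
      · intro j _ hne
        rw [if_neg]
        intro h
        rcases hi with ⟨a1, a2⟩ | ⟨a1, a2⟩ <;> rcases h with ⟨b1, b2⟩ | ⟨b1, b2⟩
        · exact hne (hf (b1.trans a1.symm))
        · have c1 : finRotate n i = j := hf (a2.trans b1.symm)
          have c2 : finRotate n j = i := hf (b2.trans a1.symm)
          rw [← c1] at c2
          exact DL.rot2_ne hn i c2
        · have c1 : finRotate n i = j := hf (a2.trans b1.symm)
          have c2 : finRotate n j = i := hf (b2.trans a1.symm)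
          rw [← c1] at c2
          exact DL.rot2_ne hn i c2
        · exact hne (hf (b1.trans a1.symm))
      · intro h
        exact absurd (Finset.mem_univ _) h
    · rw [if_neg hc]
      apply Finset.sum_eq_zero
      intro i _
      rw [if_neg]
      intro h
      apply hc
      rcases h with ⟨a1, a2⟩ | ⟨a1, a2⟩
      · exact ⟨i, Or.inl ⟨a1, a2⟩⟩
      · exact ⟨i, Or.inr ⟨a1, a2⟩⟩
  rw [hm, e1, add_zero]
  congr 1
  rw [Finset.sum_congr rfl fun i _ => e2 i, Finset.sum_comm]
  exact Finset.sum_congr rfl e3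

end Pool.Agent.Helper16.ES
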