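import Pool.Agent.Helper52.ES.Spec

set_option autoImplicit false

/-! # Module GC: combinatorial conditions of the net -/

namespace Pool.Agent.Helper16.ES

open Pool.Agent.Helper52.ES Pool.Agent.Helper52.Grid

namespace GC

variable (p : Par)

/-- sites of the optional edges -/
theorem O_form {p : Par} (hN : p.NF) {a b : Vx} (h : p.O a b) :
    (∃ x y, a = lat x y ∧ p.fd x y = 1 ∧ p.hub x y = false) ∨
      ∃ i c, a = ring i c ∧ i < p.rows ∧ c < 4 := by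
  have hh : ∀ x y, x < p.K0 → p.hub x y = false := by
    intro x y hx
    unfold Par.hub
    rw [decide_eq_false_iff_not]
    rintro ⟨h1, _⟩
    omega
  rcases h with h | h
  · cases h with
    | hor x y hx h2 =>
      obtain ⟨_, h3, _, h4, h5⟩ := hN.oh x y h2
      exact Or.inl ⟨x, y, rfl, h4, hh x y hx⟩
    | ver x y hx h2 =>
      obtain ⟨_, h3, _, h4, h5⟩ := hN.ov x y h2
      exact Or.inl ⟨x, y, rfl, h4, hh x y hx⟩
    | rin i c hi hc => exact Or.inr ⟨i, c, rfl, hi, hc⟩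
  · cases h with
    | hor x y hx h2 =>
      obtain ⟨_, h3, _, h4, h5⟩ := hN.oh x y h2
      exact Or.inl ⟨x + 1, y, rfl, h5, hh _ y h3⟩
    | ver x y hx h2 =>
      obtain ⟨_, h3, _, h4, h5⟩ := hN.ov x y h2
      exact Or.inl ⟨x, y + 1, rfl, h5, hh x _ hx⟩
    | rin i c hi hc => exact Or.inr ⟨i, (c + 1) % 4, rfl, hi, Nat.mod_lt _ (by norm_num)⟩

theorem O_mem {p : Par} (hN : p.NF) (hV : p.VM) {a b : Vx} (h : p.O a b) : a ∈ p.V := by
  rcases O_form hN h with ⟨x, y, rfl, h1, h2⟩ | ⟨i, c, rfl, h1, h2⟩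
  · exact (hV.lat x y).2 ⟨by omega, h2⟩
  · exact (hV.ring i c).2 ⟨h1, h2⟩

theorem O_ne {p : Par} {a b : Vx} (h : p.O a b) : a ≠ b := by
  have key : ∀ a b, p.O1 a b → a ≠ b := by
    intro a b h
    cases h with
    | hor x y hx h2 => intro h; simp at h
    | ver x y hx h2 => intro h; simp at h
    | rin i c hi hc =>
      intro h
      simp only [Prod.mk.injEq, true_and, and_true] at h
      omega
  rcases h with h | h
  · exact key _ _ h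
  · exact (key _ _ h).symm

theorem st_ne1 (x y : ℕ) : p.st x y 3 ≠ p.st (x + 1) y 1 := by
  unfold Par.st
  split_ifs <;> simp

theorem st_ne2 (x y : ℕ) : p.st x y 2 ≠ p.st x (y + 1) 0 := by
  unfold Par.st
  split_ifs <;> simp

theorem two_hm {p : Par} (hF : p.FN) {x y : ℕ} (h : p.h x y = 0) (W : ℕ) :
    (p.net W).Two (hm x y) :=
  ⟨_, _, st_ne1 p x y, (hF.hm x y _).2 ⟨h, Or.inl rfl⟩, (hF.hm x y _).2 ⟨h, Or.inr rfl⟩⟩

theorem two_vm {p : Par} (hF : p.FN) {x y : ℕ} (h : p.v x y = 0) (W : ℕ) :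
    (p.net W).Two (vm x y) :=
  ⟨_, _, st_ne2 p x y, (hF.vm x y _).2 ⟨h, Or.inl rfl⟩, (hF.vm x y _).2 ⟨h, Or.inr rfl⟩⟩

theorem coin_ne (i c k : ℕ) : (if k = p.fk i c then ring i c else coin i c (k - 1)) ≠
    (if k = p.e + 2 then p.mid i c else coin i c (k + 1)) := by
  unfold Par.mid
  split_ifs <;> simp

theorem two_coin {p : Par} (hF : p.FN) {i c k : ℕ} (hi : i < p.rows) (hc : c < 4)
    (hk : p.fk i c ≤ k) (hk' : k < p.e + 3) (W : ℕ) : (p.net W).Two (coin i c k) :=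
  ⟨_, _, coin_ne p i c k, (hF.coin i hi c hc k hk hk' _).2 (Or.inl rfl),
    (hF.coin i hi c hc k hk hk' _).2 (Or.inr rfl)⟩

/-- at most two forced neighbours -/
theorem most {p : Par} (hN : p.NF) (hV : p.VM) (hK : p.FK) (hF : p.FN) (a b c d : Vx)
    (h1 : p.F a b) (h2 : p.F a c) (h3 : p.F a d) : b = c ∨ b = d ∨ c = d := by
  have ha : a ∈ p.V := by
    rcases h1 with h | h
    · exact (hF.memV _ _ h).1
    · exact (hF.memV _ _ h).2.1
  rcases hV.form a ha with ⟨x, y, rfl⟩ | ⟨x, y, rfl⟩ | ⟨x, y, rfl⟩ | ⟨i, j, rfl⟩ | ⟨i, j, k, rfl⟩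
  · obtain ⟨_, hh⟩ := (hV.lat x y).1 ha
    have h4 := hN.two x y hh
    rw [hF.lat x y _ hh] at h1 h2 h3
    unfold Par.fd at h4
    rcases h1 with ⟨a1, rfl⟩ | ⟨a0, a1, rfl⟩ | ⟨a1, rfl⟩ | ⟨a0, a1, rfl⟩ <;>
    rcases h2 with ⟨b1, rfl⟩ | ⟨b0, b1, rfl⟩ | ⟨b1, rfl⟩ | ⟨b0, b1, rfl⟩ <;>
    first
    | exact Or.inl rfl
    | (rcases h3 with ⟨c1, rfl⟩ | ⟨c0, c1, rfl⟩ | ⟨c1, rfl⟩ | ⟨c0, c1, rfl⟩ <;>
       first
       | exact Or.inr (Or.inl rfl)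
       | exact Or.inr (Or.inr rfl)
       | (exfalso; simp only [*, and_self, if_true] at h4; omega))
  · rw [hF.hm] at h1 h2 h3
    rcases h1 with ⟨_, rfl | rfl⟩ <;> rcases h2 with ⟨_, rfl | rfl⟩ <;>
      rcases h3 with ⟨_, rfl | rfl⟩ <;> simp
  · rw [hF.vm] at h1 h2 h3
    rcases h1 with ⟨_, rfl | rfl⟩ <;> rcases h2 with ⟨_, rfl | rfl⟩ <;>
      rcases h3 with ⟨_, rfl | rfl⟩ <;> simp
  · obtain ⟨hi, hc⟩ := (hV.ring i j).1 ha
    rw [hF.ring i hi j hc] at h1 h2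
    exact Or.inl (h1.trans h2.symm)
  · obtain ⟨hi, hc, hk, hk'⟩ := (hV.coin i j k).1 ha
    rw [hK.cn i hi j hc] at hk'
    rw [hF.coin i hi j hc k hk' hk] at h1 h2 h3
    rcases h1 with h1 | h1 <;> rcases h2 with h2 | h2 <;> rcases h3 with h3 | h3 <;>
      simp only [h1, h2, h3, true_or, or_true]

/-- sites with one forced edge have one forced neighbour -/
theorem lat_one {p : Par} (hF : p.FN) {x y : ℕ} (h1 : p.fd x y = 1)
    (h2 : p.hub x y = false) (b c : Vx) (hb : p.F (lat x y) b) (hc : p.F (lat x y) c) :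
    b = c := by
  rw [hF.lat x y _ h2] at hb hc
  unfold Par.fd at h1
  rcases hb with ⟨a1, rfl⟩ | ⟨a0, a1, rfl⟩ | ⟨a1, rfl⟩ | ⟨a0, a1, rfl⟩ <;>
  rcases hc with ⟨b1, rfl⟩ | ⟨b0, b1, rfl⟩ | ⟨b1, rfl⟩ | ⟨b0, b1, rfl⟩ <;>
  first
  | rfl
  | (exfalso; simp only [*, and_self, if_true] at h1; omega)

end GC

/-- (GC) -/
theorem GC : specGC := by
  intro p W _ hN hV hK hF
  refine ⟨hV.nodup, hF.nodup, hF.anti, hF.memV, ?_, ?_, ?_, ?_, ?_, ?_⟩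
  · intro a b h
    exact ⟨GC.O_mem hN hV h, GC.O_mem hN hV (Or.symm h), GC.O_ne h⟩
  · intro a b h
    exact Or.symm h
  · intro a ha
    rcases hV.form a ha with ⟨x, y, rfl⟩ | ⟨x, y, rfl⟩ | ⟨x, y, rfl⟩ | ⟨i, j, rfl⟩ | ⟨i, j, k, rfl⟩
    · obtain ⟨h1, hh⟩ := (hV.lat x y).1 ha
      unfold Par.fd at h1
      by_cases c1 : p.h x y = 0
      · exact ⟨_, (hF.lat x y _ hh).2 (Or.inl ⟨c1, rfl⟩)⟩
      by_cases c2 : 0 < x ∧ p.h (x - 1) y = 0
      · exact ⟨_, (hF.lat x y _ hh).2 (Or.inr (Or.inl ⟨c2.1, c2.2, rfl⟩))⟩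
      by_cases c3 : p.v x y = 0
      · exact ⟨_, (hF.lat x y _ hh).2 (Or.inr (Or.inr (Or.inl ⟨c3, rfl⟩)))⟩
      by_cases c4 : 0 < y ∧ p.v x (y - 1) = 0
      · exact ⟨_, (hF.lat x y _ hh).2 (Or.inr (Or.inr (Or.inr ⟨c4.1, c4.2, rfl⟩)))⟩
      · rw [if_neg c1, if_neg c2, if_neg c3, if_neg c4] at h1
        exact absurd rfl h1
    · exact ⟨_, (hF.hm x y _).2 ⟨(hV.hm x y).1 ha, Or.inl rfl⟩⟩
    · exact ⟨_, (hF.vm x y _).2 ⟨(hV.vm x y).1 ha, Or.inl rfl⟩⟩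
    · obtain ⟨hi, hc⟩ := (hV.ring i j).1 ha
      exact ⟨_, (hF.ring i hi j hc _).2 rfl⟩
    · obtain ⟨hi, hc, hk, hk'⟩ := (hV.coin i j k).1 ha
      rw [hK.cn i hi j hc] at hk'
      exact ⟨_, (hF.coin i hi j hc k hk' hk _).2 (Or.inl rfl)⟩
  · intro a b c d h1 h2 h3
    exact GC.most hN hV hK hF a b c d h1 h2 h3
  · rintro a b ⟨c, d, hcd, h1, h2⟩ hO
    rcases GC.O_form hN hO with ⟨x, y, rfl, h3, h4⟩ | ⟨i, j, rfl, h3, h4⟩
    · exact hcd (GC.lat_one hF h3 h4 c d h1 h2)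
    · exact hcd (((hF.ring i h3 j h4 c).1 h1).trans ((hF.ring i h3 j h4 d).1 h2).symm)
  · intro a b h
    have h' : p.F a b := h
    have ha : a ∈ p.V := by
      rcases h' with h | h
      · exact (hF.memV _ _ h).1
      · exact (hF.memV _ _ h).2.1
    rcases hV.form a ha with ⟨x, y, rfl⟩ | ⟨x, y, rfl⟩ | ⟨x, y, rfl⟩ | ⟨i, j, rfl⟩ | ⟨i, j, k, rfl⟩
    · right
      obtain ⟨h1, hh⟩ := (hV.lat x y).1 ha
      rw [hF.lat x y _ hh] at h'
      rcases h' with ⟨a1, rfl⟩ | ⟨a0, a1, rfl⟩ | ⟨a1, rfl⟩ | ⟨a0, a1, rfl⟩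
      · exact GC.two_hm hF a1 W
      · exact GC.two_hm hF a1 W
      · exact GC.two_vm hF a1 W
      · exact GC.two_vm hF a1 W
    · exact Or.inl (GC.two_hm hF ((hV.hm x y).1 ha) W)
    · exact Or.inl (GC.two_vm hF ((hV.vm x y).1 ha) W)
    · right
      obtain ⟨hi, hc⟩ := (hV.ring i j).1 ha
      rw [hF.ring i hi j hc] at h'
      rw [h']
      exact GC.two_coin hF hi hc le_rfl (by have := hK.lt i hi j hc; omega) W
    · left
      obtain ⟨hi, hc, hk, hk'⟩ := (hV.coin i j k).1 ha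
      rw [hK.cn i hi j hc] at hk'
      exact GC.two_coin hF hi hc hk' hk W

end Pool.Agent.Helper16.ES
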